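import Pool.Agent.H543.MQ.Pairs

/-!
# Rationals of the form `(P ^ 2 - 1) / (Q - 1)` with `P` almost prime and `Q` a `P₂`
-/

set_option autoImplicit false

namespace Pool.Agent.Results.MP_d3dd4c_nt.ClustersOfAlmostPrimePairs

open Finset Filter

/-- `n > 0` has at most `r` prime factors (with multiplicity), all of them `≥ y`. -/
def AlmostPrime (r : ℕ) (y : ℝ) (n : ℤ) : Prop :=
  0 < n ∧ n.natAbs.primeFactorsList.length ≤ r ∧ ∀ p : ℕ, p.Prime → (p : ℤ) ∣ n → y ≤ p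

/-- With `P = r x + 1`, `r` the numerator of `ρ`: `P` is almost prime (at most `r` prime factors, all
`≥ N ^ δ`) and `ρ = (P ^ 2 - 1) / (Q - 1)` for some `Q > 1` with at most two prime factors, all
`≥ N ^ (6 / 25)`. -/
def Good (ρ : ℚ) (r : ℕ) (δ : ℝ) (N x : ℕ) : Prop :=
  AlmostPrime r ((N : ℝ) ^ δ) (ρ.num * x + 1) ∧ ∃ Q : ℤ, 1 < Q ∧
    AlmostPrime 2 ((N : ℝ) ^ (6 / 25 : ℝ)) Q ∧ ρ = ((ρ.num * x + 1 : ℤ) ^ 2 - 1 : ℚ) / ((Q : ℚ) - 1)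


open Classical in
/-- The number of the `n` in `(N, N + X]` such that all `n + h`, `h ∈ H`, are good. -/
noncomputable def number (ρ : ℚ) (r : ℕ) (δ : ℝ) (H : Finset ℕ) (N X : ℕ) : ℕ :=
  ((Ioc N (N + X)).filter (fun n : ℕ => ∀ h ∈ H, Good ρ r δ N (n + h))).card

/-- There is a progression `n, n + e, ..., n + (l - 1) e` in `(N, N + X]` with difference
`1 ≤ e ≤ (log N) ^ B` such that all `n + j e + h`, `j < l`, `h ∈ H`, are good. -/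
def Progression (ρ : ℚ) (r : ℕ) (δ : ℝ) (H : Finset ℕ) (l B N X : ℕ) : Prop :=
  ∃ n e : ℕ, N < n ∧ n + (l - 1) * e ≤ N + X ∧ 1 ≤ e ∧ (e : ℝ) ≤ Real.log N ^ B ∧
    ∀ j < l, ∀ h ∈ H, Good ρ r δ N (n + j * e + h)

/-- The pattern `H` occurs again and again: for every `l` there are infinitely many `N` such that the
interval `(N, N + X]`, `X = ⌈N ^ (1 - δ₀)⌉`, contains at least `X / (log N) ^ D` integers `n` with all
`n + h`, `h ∈ H`, good, and a progression of length `l` of such `n` with difference at most a power of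
`log N`. -/
def Recurrent (ρ : ℚ) (r : ℕ) (δ₀ δ : ℝ) (D : ℕ) (H : Finset ℕ) : Prop :=
  ∀ l : ℕ, 2 ≤ l → ∃ B : ℕ, ∃ᶠ N : ℕ in atTop,
    (⌈(N : ℝ) ^ (1 - δ₀)⌉₊ : ℝ) / Real.log N ^ D ≤ number ρ r δ H N ⌈(N : ℝ) ^ (1 - δ₀)⌉₊ ∧
    Progression ρ r δ H l B N ⌈(N : ℝ) ^ (1 - δ₀)⌉₊

open Classical in
/-- **Bounded clusters of representations `ρ = (P ^ 2 - 1) / (Q - 1)`, `P` almost prime, `Q` a `P₂`**,
for every rational `ρ > 1`. -/
theorem result (ρ : ℚ) (hρ : 1 < ρ) :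
    ∃ δ₀ : ℝ, 0 < δ₀ ∧ ∀ m : ℕ, ∃ (K D r : ℕ) (δ : ℝ), 0 < δ ∧
      -- every set with at least `K` elements contains a pattern with `m` elements
      (∀ S : Finset ℕ, K ≤ S.card → ∀ l : ℕ, 2 ≤ l → ∃ B : ℕ, ∀ᶠ N : ℕ in atTop,
        ∀ X : ℕ, (N : ℝ) ^ (1 - δ₀) ≤ X → 2 * X ≤ N → ∃ H ⊆ S, H.card = m ∧
          X / Real.log N ^ D ≤ number ρ r δ H N X ∧ Progression ρ r δ H l B N X) ∧
      -- a positive proportion of the patterns with `m` elements are recurrent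
      (∀ U : Finset ℕ, K ≤ U.card → U.card.choose m ≤
        K.choose m * ((U.powersetCard m).filter (Recurrent ρ r δ₀ δ D)).card) := by
  have hd : 0 < ρ.num := Rat.num_pos.2 (by linarith)
  have ha : (0 : ℤ) < ρ.den := by exact_mod_cast ρ.pos
  have hda : (ρ.den : ℤ) < ρ.num := by
    have h1 : (ρ.num : ℚ) / ρ.den = ρ := Rat.num_div_den ρ
    have h2 : (0 : ℚ) < ρ.den := by exact_mod_cast ρ.pos
    rw [← h1, lt_div_iff₀ h2, one_mul] at hρ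
    exact_mod_cast hρ
  have hD : ¬ IsSquare ((0 : ℤ) ^ 2 - 4 * ρ.den * (ρ.num - ρ.den)) := by
    rintro ⟨r, hr⟩
    have h1 := mul_self_nonneg r
    have h2 : 0 < (ρ.den : ℤ) * (ρ.num - ρ.den) := mul_pos ha (by linarith)
    nlinarith
  obtain ⟨δ₀, h0, h⟩ := Pool.Agent.H543.MQ.pairs ρ.den 0 (ρ.num - ρ.den) ρ.num 1 1 ha hd hD
    (by simp) (by ring)
  refine ⟨δ₀, h0, fun m => ?_⟩
  obtain ⟨K, D, r, δ, hδ, h⟩ := h m
  refine ⟨K, D, r, δ, hδ, h (fun N x => Good ρ r δ N x) (fun N x hx h1 h2 => ⟨h1, ?_⟩)⟩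
  obtain ⟨Q, hQ, hQ2⟩ := h2
  have hx0 : (1 : ℤ) ≤ x := by exact_mod_cast (by omega : 1 ≤ x)
  have hP : 1 < ρ.num * (x : ℤ) + 1 := by nlinarith
  have hQ3 : ρ.num * (Q - 1) = ρ.den * ((ρ.num * x + 1) ^ 2 - 1) := by linarith
  have hpos : 0 < ρ.num * (Q - 1) := by
    rw [hQ3]
    apply mul_pos ha
    nlinarith
  have hQ1 : 0 < Q - 1 := (mul_pos_iff_of_pos_left hd).1 hpos
  refine ⟨Q, by linarith, hQ2, ?_⟩
  have hQ1q : ((Q : ℚ) - 1) ≠ 0 := by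
    have : (0 : ℚ) < (Q : ℚ) - 1 := by exact_mod_cast hQ1
    exact this.ne'
  rw [eq_div_iff hQ1q]
  have h3 : (ρ.num : ℚ) / ρ.den = ρ := Rat.num_div_den ρ
  have h4 : (ρ.den : ℚ) ≠ 0 := by exact_mod_cast ρ.den_nz
  have h5 : (ρ.num : ℚ) * ((Q : ℚ) - 1) = ρ.den * (((ρ.num : ℚ) * x + 1) ^ 2 - 1) := by
    exact_mod_cast hQ3
  have h6 : ρ * ((Q : ℚ) - 1) = (ρ.num : ℚ) * ((Q : ℚ) - 1) / ρ.den := by
    conv_lhs => rw [← h3]
    ring
  rw [h6, h5]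
  push_cast
  field_simp

end Pool.Agent.Results.MP_d3dd4c_nt.ClustersOfAlmostPrimePairs
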